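import Pool.Agent.N496.CV.All
import Pool.Agent.N496.CV.L2Pf
import Pool.Agent.N504.RS.Brid
import Pool.Agent.W907.SM.All

/-!
# Middle points in barycentric subdivisions
-/

set_option autoImplicit false

namespace Pool.Agent.Helper10K1.BC

open Pool.Agent.W907.SG Pool.Agent.W907.SM Pool.Agent.W461.SGN Pool.Agent.N496.CV Pool.Agent.R782.Bal
open Pool.Agent.N504.RS (Mid)
open Pool.Agent.N504.RS.Two (HSph2)

/-- The set `V` with the relation `r` (inclusion) and the dimensions `dim` behaves like the set of the closed cells of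
a regular cell complex: `r` is transitive, the dimension is strictly monotone, and every cell of dimension one (edge)
contains exactly two others (its vertices). -/
structure Cells {V : Type} (r : V → V → Prop) (dim : V → ℕ) : Prop where
  trans : ∀ a b c, r a b → r b c → r a c
  dim_lt : ∀ a b, r a b → dim a < dim b
  two : ∀ e, dim e = 1 → {v | r v e}.ncard = 2

/-- every cell of codimension one (`dim` = `m`, the cells have dimension at most `m + 1`) is contained in exactly two
others -/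
def Closed {V : Type} (r : V → V → Prop) (dim : V → ℕ) (m : ℕ) : Prop :=
  (∀ v, dim v ≤ m + 1) ∧ ∀ v, dim v = m → {u | r v u}.ncard = 2

variable {V : Type} {r : V → V → Prop} {dim : V → ℕ}

lemma pair_of_ncard {s : Set V} (h : s.ncard = 2) : ∃ a b, a ≠ b ∧ ∀ u, u ∈ s ↔ u = a ∨ u = b := by
  obtain ⟨a, b, hab, hs⟩ := Set.ncard_eq_two.1 h
  exact ⟨a, b, hab, fun u => by rw [hs]; simp⟩

lemma adj_cmp {u v : V} : (cmp r).Adj u v ↔ u ≠ v ∧ (r u v ∨ r v u) := SimpleGraph.fromRel_adj r u v

theorem mid_cells {d : ℕ} (hd : 1 ≤ d) (h : Cells r dim) (up : Prop) (h1 : ¬ up → ∀ v, dim v ≤ d + 1)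
    (h2 : up → Closed r dim (d + 1)) :
    Mid (cmp r) (fun v => min (dim v - 1) d) {v | dim v ≠ 1 ∧ ¬ (up ∧ dim v = d + 1)} := by
  have hne : ∀ {a b}, r a b → a ≠ b := fun {a b} hab he => by
    have := h.dim_lt a b hab
    rw [he] at this
    omega
  have hcol : ∀ u v, (dim u ≠ 1 ∧ ¬ (up ∧ dim u = d + 1)) → (dim v ≠ 1 ∧ ¬ (up ∧ dim v = d + 1)) → r u v →
      min (dim u - 1) d < min (dim v - 1) d := by
    intro u v hu hv huv
    have h3 := h.dim_lt u v huv
    by_cases hup : up
    · have h4 := (h2 hup).1 v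
      have h5 : dim u ≠ d + 1 := fun h => hu.2 ⟨hup, h⟩
      have h6 : dim v ≠ d + 1 := fun h => hv.2 ⟨hup, h⟩
      omega
    · have h4 := h1 hup v
      have := hu.1
      have := hv.1
      omega
  refine ⟨fun u hu v hv huv => ?_, fun v hv => ?_⟩
  · rcases (adj_cmp.1 huv).2 with h3 | h3
    · exact (hcol u v hu hv h3).ne
    · exact (hcol v u hv hu h3).ne'
  · by_cases hv1 : dim v = 1
    · obtain ⟨s, t, hst, hs⟩ := pair_of_ncard (h.two v hv1)
      have hs' : ∀ u, r u v ↔ u = s ∨ u = t := hs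
      have r1 : r s v := (hs' s).2 (Or.inl rfl)
      have r2 : r t v := (hs' t).2 (Or.inr rfl)
      have e1 := h.dim_lt s v r1
      have e2 := h.dim_lt t v r2
      refine ⟨s, ⟨by omega, by omega⟩, t, ⟨by omega, by omega⟩, hst, ?_, ?_, ?_, ?_, ?_, ?_⟩
      · intro hadj
        rcases (adj_cmp.1 hadj).2 with h3 | h3
        · have := h.dim_lt _ _ h3; omega
        · have := h.dim_lt _ _ h3; omega
      · exact adj_cmp.2 ⟨(hne r1).symm, Or.inr r1⟩
      · exact adj_cmp.2 ⟨(hne r2).symm, Or.inr r2⟩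
      · show min (dim s - 1) d = min (dim v - 1) d
        omega
      · show min (dim t - 1) d = min (dim v - 1) d
        omega
      · intro u hu hus hut
        rcases (adj_cmp.1 hu).2 with h3 | h3
        · have e3 := h.dim_lt _ _ h3
          refine ⟨adj_cmp.2 ⟨hus, Or.inr (h.trans _ _ _ r1 h3)⟩, adj_cmp.2 ⟨hut, Or.inr (h.trans _ _ _ r2 h3)⟩, ?_⟩
          show min (dim u - 1) d ≠ min (dim v - 1) d
          omega
        · exact absurd ((hs' u).1 h3) (by tauto)
    · have hup : up ∧ dim v = d + 1 := by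
        by_contra hcon
        exact hv ⟨hv1, hcon⟩
      obtain ⟨hup, hvd⟩ := hup
      obtain ⟨hle, htwo⟩ := h2 hup
      obtain ⟨s, t, hst, hs⟩ := pair_of_ncard (htwo v hvd)
      have hs' : ∀ u, r v u ↔ u = s ∨ u = t := hs
      have r1 : r v s := (hs' s).2 (Or.inl rfl)
      have r2 : r v t := (hs' t).2 (Or.inr rfl)
      have e1 := h.dim_lt v s r1
      have e2 := h.dim_lt v t r2
      have e3 := hle s
      have e4 := hle t
      refine ⟨s, ⟨by omega, by omega⟩, t, ⟨by omega, by omega⟩, hst, ?_, ?_, ?_, ?_, ?_, ?_⟩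
      · intro hadj
        rcases (adj_cmp.1 hadj).2 with h3 | h3
        · have := h.dim_lt _ _ h3; omega
        · have := h.dim_lt _ _ h3; omega
      · exact adj_cmp.2 ⟨hne r1, Or.inl r1⟩
      · exact adj_cmp.2 ⟨hne r2, Or.inl r2⟩
      · show min (dim s - 1) d = min (dim v - 1) d
        omega
      · show min (dim t - 1) d = min (dim v - 1) d
        omega
      · intro u hu hus hut
        rcases (adj_cmp.1 hu).2 with h3 | h3
        · exact absurd ((hs' u).1 h3) (by tauto)
        · have e5 := h.dim_lt _ _ h3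
          refine ⟨adj_cmp.2 ⟨hus, Or.inl (h.trans _ _ _ h3 r1)⟩, adj_cmp.2 ⟨hut, Or.inl (h.trans _ _ _ h3 r2)⟩, ?_⟩
          show min (dim u - 1) d ≠ min (dim v - 1) d
          omega

/-- all covers, for cell complexes in the sphere of dimension `2 d` -/
theorem cells_all [Fintype V] [LinearOrder V] {d : ℕ} (hd : 1 ≤ d) (h : Cells r dim)
    (h1 : (∀ v, dim v ≤ d + 1) ∨ Closed r dim (d + 1)) (hO : Obs (cmp r) (2 * (d + 1)))
    (K : Subgroup (W (cmp r))) (hK : K ≤ (th (cmp r)).ker) (k : ℕ) (hk : d < k) : HasL2Betti K k 0 := by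
  have hM : Mid (cmp r) (fun v => min (dim v - 1) d) {v | dim v ≠ 1 ∧ ¬ (Closed r dim (d + 1) ∧ dim v = d + 1)} :=
    mid_cells hd h _ (fun h2 => h1.resolve_right h2) id
  have h6 := hasL2Betti K k
  rw [Pool.Agent.N496.CV.main d V (cmp r) (fun v => ⟨min (dim v - 1) d, by omega⟩) _ hM hO K hK k hk] at h6
  exact h6

/-- all covers, for graphs without edges in the sphere of dimension zero -/
theorem discrete_all [Fintype V] [LinearOrder V] {G : SimpleGraph V} (hG : ∀ u v, ¬ G.Adj u v) (hO : Obs G 2)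
    (K : Subgroup (W G)) (hK : K ≤ (th G).ker) (k : ℕ) (hk : 0 < k) : HasL2Betti K k 0 := by
  have hM : Mid G (fun _ => ((0 : Fin 1) : ℕ)) Set.univ :=
    ⟨fun u _ v _ huv => absurd huv (hG u v), fun v hv => absurd trivial hv⟩
  have h6 := hasL2Betti K k
  rw [Pool.Agent.N496.CV.main 0 V G (fun _ => (0 : Fin 1)) _ hM hO K hK k hk] at h6
  exact h6

section transport

open Pool.Agent.N504.RS.Two (bb bb_tr clq mem_clq hsph_clq)

theorem emb_of_hsph2' {V : Type} [Fintype V] [LinearOrder V] {G : SimpleGraph V} {d n : ℕ} (hG : HSph2 n G)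
    (hn : n ≤ 2 * d + 1) : Emb d G := by
  classical
  obtain ⟨e⟩ : Nonempty (V ≃o Fin (Fintype.card V)) := ⟨(Fintype.orderIsoFinOfCardEq V rfl).symm⟩
  obtain ⟨H, hH⟩ : ∃ H : SimpleGraph (Fin (Fintype.card V)), H = G.comap e.symm := ⟨_, rfl⟩
  have hadj : ∀ a b, H.Adj a b ↔ G.Adj (e.symm a) (e.symm b) := fun a b => by rw [hH]; rfl
  have hH2 : HSph2 n H := by
    intro S hS i
    have h1 := bb_tr (G := G) (H := H) e.symm e.symm.strictMono (lk H S) (fun u _ v _ => hadj u v) i
    have h2 : e.symm '' lk H S = lk G (S.map e.symm.toEquiv.toEmbedding) := by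
      ext v
      constructor
      · rintro ⟨u, hu, rfl⟩ w hw
        obtain ⟨x, hx, rfl⟩ := Finset.mem_map.1 hw
        exact (hadj u x).1 (hu x hx)
      · intro hv
        refine ⟨e v, fun x hx => ?_, e.symm_apply_apply v⟩
        rw [hadj, e.symm_apply_apply]
        exact hv _ (Finset.mem_map.2 ⟨x, hx, rfl⟩)
    rw [h2] at h1
    have h3 := hG (S.map e.symm.toEquiv.toEmbedding) (by
      intro a ha b hb hab
      obtain ⟨x, hx, rfl⟩ := Finset.mem_map.1 (Finset.mem_coe.1 ha)
      obtain ⟨y, hy, rfl⟩ := Finset.mem_map.1 (Finset.mem_coe.1 hb)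
      exact (hadj x y).1 (hS hx hy fun h => hab (by rw [h]))) i
    rw [Finset.card_map] at h3
    exact h1.symm.trans h3
  refine Emb.sphere (clq H) e.toEquiv.toEmbedding hn (hsph_clq hH2) fun T hT => ?_
  rw [mem_clq]
  intro a ha b hb hab
  obtain ⟨x, hx, rfl⟩ := Finset.mem_map.1 (Finset.mem_coe.1 ha)
  obtain ⟨y, hy, rfl⟩ := Finset.mem_map.1 (Finset.mem_coe.1 hb)
  rw [hadj]
  show G.Adj (e.symm (e x)) (e.symm (e y))
  rw [e.symm_apply_apply, e.symm_apply_apply]
  exact hT hx hy fun h => hab (by rw [h])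

end transport

/-- all covers, for Gorenstein* posets -/
theorem gor_all [Fintype V] [LinearOrder V] {n : ℕ} {rk : V → Fin n} (hG : GorStar n r rk) (K : Subgroup (W (cmp r)))
    (hK : K ≤ (th (cmp r)).ker) (k : ℕ) (hk : n < 2 * k) (hk2 : n ≤ k + 2) : HasL2Betti K k 0 := by
  have hS2 : HSph2 n (cmp r) := fun S hS i => hG.sphere S hS i
  obtain ⟨t1, t2⟩ := thin n V r rk hG
  rcases Nat.lt_or_ge n 2 with hn | hn
  · refine discrete_all (fun u v huv => ?_) (emb_of_hsph2' (d := 0) hS2 (by omega)).obs K hK k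
      (by omega)
    have e1 := (rk u).2
    have e2 := (rk v).2
    rcases (adj_cmp.1 huv).2 with h3 | h3
    · have := Fin.lt_def.1 (hG.rk_lt _ _ h3); omega
    · have := Fin.lt_def.1 (hG.rk_lt _ _ h3); omega
  · have hC : Cells r (fun v => (rk v : ℕ)) :=
      ⟨hG.trans, fun a b hab => hG.rk_lt a b hab, fun e he => t2 _ (Or.inr ⟨e, rfl, he.symm⟩)⟩
    obtain ⟨d, hd⟩ : ∃ d, d = k - 1 := ⟨_, rfl⟩
    refine cells_all (d := d) (by omega) hC ?_ (emb_of_hsph2' hS2 (by omega)).obs K hK k (by omega)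
    rcases Nat.lt_or_ge n (d + 3) with h3 | h3
    · left
      intro v
      have := (rk v).2
      show (rk v : ℕ) ≤ d + 1
      omega
    · right
      refine ⟨fun v => ?_, fun v hv => ?_⟩
      · have := (rk v).2
        show (rk v : ℕ) ≤ d + 1 + 1
        omega
      · have h4 := t1 Set.univ (d + 1) (Or.inl ⟨rfl, by omega⟩) v trivial hv
        rw [← h4]
        congr 1
        ext M
        simp

end Pool.Agent.Helper10K1.BC
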