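import Pool.Agent.N496.CV.All
import Pool.Agent.N496.CV.L2Pf
import Pool.Agent.R782.Bal.Main

/-!
# Middle points in coloured subdivisions
-/

set_option autoImplicit false

namespace Pool.Agent.Helper10K1.BC

open Finset Pool.Agent.W907.SG Pool.Agent.W907.SM Pool.Agent.W461.SGN Pool.Agent.N496.CV Pool.Agent.R782.Bal
open Pool.Agent.N504.RS (Mid)

variable {N k : ℕ} {X : Finset (Finset (Fin N))} {col : Fin N → Fin k}

/-- There are numbers `w c ≥ 1` with sum at most `d + 1` such that every simplex all of whose vertices have the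
colour `c` has at most `w c + 1` vertices. -/
def Cost {N k : ℕ} (d : ℕ) (X : Finset (Finset (Fin N))) (col : Fin N → Fin k) : Prop :=
  ∃ w : Fin k → ℕ, (∀ c, 1 ≤ w c) ∧ ∑ c, w c ≤ d + 1 ∧ ∀ σ ∈ X, ∀ c, (∀ v ∈ σ, col v = c) → σ.card ≤ w c + 1

/-- the new colours -/
noncomputable def kap (w : Fin k → ℕ) (σ : MF X col) : ℕ := ∑ c ∈ univ.filter (· < mc σ), w c + (σ.1.card - 2)

lemma kap_lt {w : Fin k → ℕ} (h1 : ∀ c, 1 ≤ w c) (h2 : ∀ σ ∈ X, ∀ c, (∀ v ∈ σ, col v = c) → σ.card ≤ w c + 1)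
    (σ : MF X col) : kap w σ < ∑ c ∈ univ.filter (· ≤ mc σ), w c := by
  have h3 : univ.filter (· ≤ mc σ) = insert (mc σ) (univ.filter (· < mc σ)) := by
    ext c
    simp only [mem_filter, mem_univ, true_and, mem_insert]
    exact le_iff_eq_or_lt
  rw [h3, sum_insert (by simp)]
  have h4 := h2 σ.1 σ.2.1 (mc σ) fun v hv => mc_eq σ hv
  have h5 := h1 (mc σ)
  unfold kap
  omega

lemma kap_of_lt {w : Fin k → ℕ} (h1 : ∀ c, 1 ≤ w c)
    (h2 : ∀ σ ∈ X, ∀ c, (∀ v ∈ σ, col v = c) → σ.card ≤ w c + 1) {σ τ : MF X col} (h : mc σ < mc τ) :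
    kap w σ < kap w τ := by
  refine lt_of_lt_of_le (kap_lt h1 h2 σ) ?_
  have h3 : ∑ c ∈ univ.filter (· ≤ mc σ), w c ≤ ∑ c ∈ univ.filter (· < mc τ), w c := by
    refine sum_le_sum_of_subset fun c hc => ?_
    simp only [mem_filter, mem_univ, true_and] at hc ⊢
    exact lt_of_le_of_lt hc h
  unfold kap
  omega

lemma kap_ne_of_ne {w : Fin k → ℕ} (h1 : ∀ c, 1 ≤ w c)
    (h2 : ∀ σ ∈ X, ∀ c, (∀ v ∈ σ, col v = c) → σ.card ≤ w c + 1) {σ τ : MF X col} (h : mc σ ≠ mc τ) :
    kap w σ ≠ kap w τ := by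
  rcases lt_or_gt_of_ne h with h3 | h3
  · exact (kap_of_lt h1 h2 h3).ne
  · exact (kap_of_lt h1 h2 h3).ne'

lemma kap_of_eq (w : Fin k → ℕ) {σ τ : MF X col} (h : mc σ = mc τ) :
    kap w σ = kap w τ ↔ σ.1.card - 2 = τ.1.card - 2 := by
  unfold kap
  rw [h]
  omega

theorem mid_cs (hX : ∀ σ ∈ X, ∀ τ : Finset (Fin N), τ ⊆ σ → τ ∈ X) {w : Fin k → ℕ} (h1 : ∀ c, 1 ≤ w c)
    (h2 : ∀ σ ∈ X, ∀ c, (∀ v ∈ σ, col v = c) → σ.card ≤ w c + 1) :
    Mid (cs X col) (kap w) {σ | σ.1.card ≠ 2} := by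
  classical
  refine ⟨fun σ hσ τ hτ hadj => ?_, fun σ hσ => ?_⟩
  · by_cases hc : mc σ = mc τ
    · rw [Ne, kap_of_eq w hc]
      have h3 := card_pos' σ
      have h4 := card_pos' τ
      have hσ' : σ.1.card ≠ 2 := hσ
      have hτ' : τ.1.card ≠ 2 := hτ
      have h5 : σ.1.card ≠ τ.1.card := by
        intro he
        rcases adj_same hadj hc with h6 | h6
        · exact hadj.1 (Subtype.ext (eq_of_subset_of_card_le h6 he.ge))
        · exact hadj.1 (Subtype.ext (eq_of_subset_of_card_le h6 he.le).symm)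
      omega
    · exact kap_ne_of_ne h1 h2 hc
  · have hσ2 : σ.1.card = 2 := by
      by_contra h
      exact hσ h
    obtain ⟨a, b, hab, hs⟩ := card_eq_two.1 hσ2
    have ha : a ∈ σ.1 := by rw [hs]; simp
    have hb : b ∈ σ.1 := by rw [hs]; simp
    have sub1 : ∀ x ∈ σ.1, ({x} : Finset (Fin N)) ∈ X ∧ ({x} : Finset (Fin N)).Nonempty ∧
        ∀ v ∈ ({x} : Finset (Fin N)), ∀ w ∈ ({x} : Finset (Fin N)), col v = col w := by
      intro x hx
      refine ⟨hX _ σ.2.1 _ (singleton_subset_iff.2 hx), singleton_nonempty x, fun v hv w hw => ?_⟩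
      rw [mem_singleton.1 hv, mem_singleton.1 hw]
    obtain ⟨pt, hpt⟩ : ∃ pt : ∀ x ∈ σ.1, MF X col, ∀ x hx, (pt x hx).1 = {x} :=
      ⟨fun x hx => ⟨{x}, sub1 x hx⟩, fun x hx => rfl⟩
    have hmc : ∀ x hx, mc (pt x hx) = mc σ := by
      intro x hx
      rw [← mc_eq (pt x hx) (v := x) (by rw [hpt]; simp), ← mc_eq σ hx]
    have hA : ∀ x hx, (pt x hx).1.card ≠ 2 := by
      intro x hx
      rw [hpt, card_singleton]
      omega
    have hadj : ∀ x hx, (cs X col).Adj σ (pt x hx) := by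
      intro x hx
      refine ⟨fun h => ?_, ?_, fun _ => Or.inr ?_⟩
      · exact hA x hx (h ▸ hσ2)
      · rw [hpt, union_eq_left.2 (singleton_subset_iff.2 hx)]
        exact σ.2.1
      · rw [hpt]
        exact singleton_subset_iff.2 hx
    have hkap : ∀ x hx, kap w (pt x hx) = kap w σ := by
      intro x hx
      rw [kap_of_eq w (hmc x hx), hpt, card_singleton, hσ2]
    have hne : pt a ha ≠ pt b hb := by
      intro h
      have h3 := congrArg (fun z : MF X col => z.1) h
      simp only [hpt] at h3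
      exact hab (singleton_injective h3)
    refine ⟨pt a ha, hA a ha, pt b hb, hA b hb, hne, ?_, hadj a ha, hadj b hb, hkap a ha, hkap b hb, ?_⟩
    · intro h
      rcases adj_same h ((hmc a ha).trans (hmc b hb).symm) with h3 | h3
      · rw [hpt, hpt, singleton_subset_singleton] at h3
        exact hab h3
      · rw [hpt, hpt, singleton_subset_singleton] at h3
        exact hab h3.symm
    · intro u hu hua hub
      have hup : mc u = mc σ → σ.1 ⊆ u.1 := by
        intro hc
        rcases adj_same hu hc.symm with h3 | h3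
        · exact h3
        · exfalso
          have h4 : u.1.card ≤ 2 := hσ2 ▸ card_le_card h3
          have h5 := card_pos' u
          rcases Nat.lt_or_ge u.1.card 2 with h6 | h6
          · obtain ⟨x, hx⟩ := card_eq_one.1 (by omega : u.1.card = 1)
            have h7 : x ∈ σ.1 := h3 (by rw [hx]; simp)
            rw [hs, mem_insert, mem_singleton] at h7
            rcases h7 with rfl | rfl
            · exact hua (Subtype.ext (hx.trans (hpt x ha).symm))
            · exact hub (Subtype.ext (hx.trans (hpt x hb).symm))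
          · exact hu.1 (Subtype.ext (eq_of_subset_of_card_le h3 (by omega)).symm)
      have hau : ∀ x hx, u ≠ pt x hx → (cs X col).Adj u (pt x hx) := by
        intro x hx hux
        refine ⟨hux, ?_, fun h => Or.inr ?_⟩
        · rw [hpt]
          refine hX _ hu.2.1 _ ?_
          rw [union_comm]
          exact union_subset_union_left (singleton_subset_iff.2 hx)
        · rw [hpt, singleton_subset_iff]
          refine hup ?_ hx
          obtain ⟨y, hy⟩ := u.2.2.1
          rw [← mc_eq u hy, ← mc_eq σ hx]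
          exact h y hy x (by rw [hpt]; simp)
      refine ⟨hau a ha hua, hau b hb hub, ?_⟩
      by_cases hc : mc u = mc σ
      · rw [Ne, kap_of_eq w hc]
        have h3 := hup hc
        have h4 : σ.1.card < u.1.card := card_lt_card (h3.ssubset_of_ne fun h => hu.1 (Subtype.ext h))
        omega
      · exact kap_ne_of_ne h1 h2 hc

theorem cols_all {d : ℕ} (hX : ∀ σ ∈ X, ∀ τ : Finset (Fin N), τ ⊆ σ → τ ∈ X) (hc : Cost d X col)
    (hE : EmbX d X col) [Fintype (MF X col)] [LinearOrder (MF X col)] (K : Subgroup (W (cs X col)))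
    (hK : K ≤ (th (cs X col)).ker) (i : ℕ) (hi : d < i) : HasL2Betti K i 0 := by
  obtain ⟨w, h1, h3, h2⟩ := hc
  have hlt : ∀ σ : MF X col, kap w σ < d + 1 := fun σ =>
    lt_of_lt_of_le (kap_lt h1 h2 σ) ((sum_le_sum_of_subset (filter_subset _ _)).trans h3)
  have h6 := hasL2Betti K i
  rw [Pool.Agent.N496.CV.main d (MF X col) (cs X col) (fun σ => ⟨kap w σ, hlt σ⟩) _ (mid_cs hX h1 h2)
    (hE.emb hX).obs K hK i hi] at h6
  exact h6

end Pool.Agent.Helper10K1.BC
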