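import Pool.Agent.Helper10K1.BC.Cells
import Pool.Agent.Helper10K1.BC.Cols
import Pool.Agent.N496.CV.Euler

/-!
# Poincaré duality subgroups
-/

set_option autoImplicit false

namespace Pool.Agent.Helper10K1.BC

open Pool.Agent.W907.SG Pool.Agent.W907.SM Pool.Agent.W461.SGN Pool.Agent.N496.CV Pool.Agent.R782.Bal
open Pool.Agent.N504.RS (Mid)

/-- the sign of the Euler characteristic of a Poincaré duality group of dimension `2 d` whose `L²`-Betti numbers vanish
above the degree `d` -/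
theorem sign_of_above {K : Type} [Group K] {d : ℕ} (h : ∀ k, d < k → VN831.l2Betti K k = 0)
    (hP : Nonempty (PD K (2 * d))) (C : V7N.FreeRes K) (q : ℕ) (hq : ∀ i, q < i → C.r i = 0) :
    0 ≤ (-1 : ℤ) ^ d * ∑ i ∈ Finset.range (q + 1), (-1 : ℤ) ^ i * (C.r i : ℤ) := by
  obtain ⟨P⟩ := hP
  refine euler_sign C q d hq fun k hk => ?_
  rcases Nat.lt_or_gt_of_ne hk with hk | hk
  · exact pd_zero P k (2 * d - k) (by omega) (h (2 * d - k) (by omega))
  · exact h k hk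

theorem sign_cells {V : Type} [Fintype V] [LinearOrder V] {r : V → V → Prop} {dim : V → ℕ} {d : ℕ} (hd : 1 ≤ d)
    (h : Cells r dim) (h1 : (∀ v, dim v ≤ d + 1) ∨ Closed r dim (d + 1)) (hE : Emb d (cmp r))
    (K : Subgroup (W (cmp r))) (hK : K ≤ (th (cmp r)).ker) (hP : Nonempty (PD K (2 * d))) (C : V7N.FreeRes K) (q : ℕ)
    (hq : ∀ i, q < i → C.r i = 0) : 0 ≤ (-1 : ℤ) ^ d * ∑ i ∈ Finset.range (q + 1), (-1 : ℤ) ^ i * (C.r i : ℤ) := by
  have hM : Mid (cmp r) (fun v => min (dim v - 1) d) {v | dim v ≠ 1 ∧ ¬ (Closed r dim (d + 1) ∧ dim v = d + 1)} :=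
    mid_cells hd h _ (fun h2 => h1.resolve_right h2) id
  exact sign_of_above (fun k hk => Pool.Agent.N496.CV.main d V (cmp r) (fun v => ⟨min (dim v - 1) d, by omega⟩) _ hM
    hE.obs K hK k hk) hP C q hq

theorem sign_cols {N k : ℕ} {X : Finset (Finset (Fin N))} {col : Fin N → Fin k} {d : ℕ}
    (hX : ∀ σ ∈ X, ∀ τ : Finset (Fin N), τ ⊆ σ → τ ∈ X) (hc : Cost d X col) (hE : EmbX d X col)
    (K : Subgroup (W (cs X col))) (hK : K ≤ (th (cs X col)).ker) (hP : Nonempty (PD K (2 * d)))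
    (C : V7N.FreeRes K) (q : ℕ) (hq : ∀ i, q < i → C.r i = 0) :
    0 ≤ (-1 : ℤ) ^ d * ∑ i ∈ Finset.range (q + 1), (-1 : ℤ) ^ i * (C.r i : ℤ) := by
  classical
  have : Fintype (MF X col) := Fintype.ofFinite _
  have : LinearOrder (MF X col) := LinearOrder.lift' (Fintype.equivFin (MF X col)) (Fintype.equivFin _).injective
  obtain ⟨w, h1, h3, h2⟩ := hc
  have hlt : ∀ σ : MF X col, kap w σ < d + 1 := fun σ =>
    lt_of_lt_of_le (kap_lt h1 h2 σ) ((Finset.sum_le_sum_of_subset (Finset.filter_subset _ _)).trans h3)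
  exact sign_of_above (fun i hi => Pool.Agent.N496.CV.main d (MF X col) (cs X col) (fun σ => ⟨kap w σ, hlt σ⟩) _
    (mid_cs hX h1 h2) (hE.emb hX).obs K hK i hi) hP C q hq

end Pool.Agent.Helper10K1.BC
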